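import Pool.Agent.Y63.NV.Stm2
import Pool.Agent.Y63.AWC.Base

/-!
# Characters of defect zero over a normal subgroup of index `p` (CLIF)
-/

open scoped BigOperators Classical
open Representation Pool.Agent.Helper884.IC

set_option autoImplicit false
set_option linter.unusedSectionVars false

noncomputable section

namespace Pool.Agent.Y564.NV

open Pool.Agent.Y63.AWC

variable {X : Type} [Group X] [Fintype X] (M : Subgroup X) [hM : M.Normal]
  {p : ℕ} [hp : Fact p.Prime]

/-- orbits and multiplicities for a normal subgroup of index `p` -/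
theorem orb_t (hr : Nat.card X = p * Nat.card M) {theta : M → ℂ} (h : IsIrrChar theta) :
    (Orb M theta).card * ∑ chi ∈ Irr X, mult M chi theta ^ 2 = p := by
  have h1 := card_Orb_mul M theta
  rw [St_eq M h, hr] at h1
  have h2 : (Orb M theta).card * (∑ chi ∈ Irr X, mult M chi theta ^ 2) * Nat.card M =
      p * Nat.card M := by
    rw [← h1]
    ring
  exact Nat.eq_of_mul_eq_mul_right Nat.card_pos h2

/-- the stabiliser is small or everything -/
theorem st_cases (hr : Nat.card X = p * Nat.card M) {theta : M → ℂ} (h : IsIrrChar theta) :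
    ((Orb M theta).card = p ∧ (∑ chi ∈ Irr X, mult M chi theta ^ 2) = 1 ∧
      Nat.card (St M theta) = Nat.card M) ∨
    ((Orb M theta).card = 1 ∧ (∑ chi ∈ Irr X, mult M chi theta ^ 2) = p ∧
      Nat.card (St M theta) = Nat.card X) := by
  have h1 := orb_t M hr h
  have h2 := card_Orb_mul M theta
  rcases (Nat.dvd_prime hp.out).1 (Dvd.intro _ h1) with h3 | h3
  · right
    rw [h3, one_mul] at h1 h2
    exact ⟨h3, h1, h2⟩
  · left
    rw [h3] at h1 h2
    have h4 : (∑ chi ∈ Irr X, mult M chi theta ^ 2) = 1 := by
      have : p * (∑ chi ∈ Irr X, mult M chi theta ^ 2) = p * 1 := by rw [h1, mul_one]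
      exact Nat.eq_of_mul_eq_mul_left hp.out.pos this
    refine ⟨h3, h4, ?_⟩
    rw [St_eq M h, h4, mul_one]

theorem fac_card (hr : Nat.card X = p * Nat.card M) :
    (Nat.card X).factorization p = (Nat.card M).factorization p + 1 := by
  rw [hr, Nat.factorization_mul hp.out.ne_zero Nat.card_pos.ne', Finsupp.add_apply,
    hp.out.factorization, Finsupp.single_eq_same, add_comm]

/-- the constituents of a character of defect zero -/
theorem dz_con (hr : Nat.card X = p * Nat.card M) {chi : X → ℂ} {theta : M → ℂ}
    (hc : IsIrrChar chi) (hz : DZ p chi) (h : IsIrrChar theta) (h1 : mult M chi theta ≠ 0) :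
    DZ p theta ∧ Nat.card (St M theta) = Nat.card M ∧ (Orb M theta).card = p := by
  obtain ⟨n, hn, hfac⟩ := hz
  obtain ⟨d, hd0, hd⟩ := deg_nat h
  have hdM := deg_dvd h hd
  have hdeg := deg_eq M hc h h1 hn hd
  have hle : mult M chi theta ^ 2 ≤ ∑ chi ∈ Irr X, mult M chi theta ^ 2 :=
    Finset.single_le_sum (f := fun c => mult M c theta ^ 2) (fun _ _ => Nat.zero_le _)
      (mem_Irr.mpr hc)
  have hdfac : d.factorization p ≤ (Nat.card M).factorization p :=
    (Nat.factorization_le_iff_dvd hd0.ne' Nat.card_pos.ne').2 hdM p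
  have hX := fac_card M hr
  rw [hX] at hfac
  have hm0 : 0 < mult M chi theta := Nat.pos_of_ne_zero h1
  rcases st_cases M hr h with ⟨h2, h3, h4⟩ | ⟨h2, h3, h4⟩
  · have hm1 : mult M chi theta = 1 := by
      rw [h3] at hle
      have : mult M chi theta ≤ 1 := by
        by_contra hcon
        push Not at hcon
        have : 2 ^ 2 ≤ mult M chi theta ^ 2 := Nat.pow_le_pow_left hcon 2
        omega
      omega
    refine ⟨⟨d, hd, ?_⟩, h4, h2⟩
    rw [hdeg, h2, hm1, mul_one, Nat.factorization_mul hp.out.ne_zero hd0.ne', Finsupp.add_apply,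
      hp.out.factorization, Finsupp.single_eq_same] at hfac
    omega
  · exfalso
    rw [h3] at hle
    have hmp : mult M chi theta < p := by
      by_contra hcon
      push Not at hcon
      have h5 : p ^ 2 ≤ mult M chi theta ^ 2 := Nat.pow_le_pow_left hcon 2
      have h6 : p ^ 2 ≤ p := h5.trans hle
      have h7 := hp.out.two_le
      nlinarith
    have hnd : ¬ p ∣ mult M chi theta := fun h5 => absurd (Nat.le_of_dvd hm0 h5) (not_le.2 hmp)
    rw [hdeg, h2, one_mul, Nat.factorization_mul hm0.ne' hd0.ne', Finsupp.add_apply,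
      Nat.factorization_eq_zero_of_not_dvd hnd] at hfac
    omega

/-- **Count of the characters of defect zero.** -/
theorem count_dz1 (hr : Nat.card X = p * Nat.card M) :
    p * ((Irr X).filter fun chi => DZ p chi).card =
      ((Irr M).filter fun theta => DZ p theta ∧ Nat.card (St M theta) = Nat.card M).card := by
  set S := (Irr X).filter fun chi => DZ p chi with hS
  set T := (Irr M).filter fun theta => DZ p theta ∧ Nat.card (St M theta) = Nat.card M with hT
  have h := Finset.sum_card_bipartiteAbove_eq_sum_card_bipartiteBelow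
    (s := S) (t := T) (fun chi theta => mult M chi theta ≠ 0)
  have h1 : ∀ chi ∈ S, (Finset.bipartiteAbove (fun chi theta => mult M chi theta ≠ 0) T chi).card
      = p := by
    intro chi hchi
    obtain ⟨hc, hz⟩ := Finset.mem_filter.mp hchi
    have hc := mem_Irr.mp hc
    obtain ⟨theta, ht, hm⟩ := mult_exists M hc
    have h2 := dz_con M hr hc hz ht hm
    rw [← h2.2.2, ← support_eq M hc ht hm]
    congr 1
    ext t
    simp only [Finset.bipartiteAbove, Finset.mem_filter, hT]
    constructor
    · rintro ⟨⟨h3, -⟩, h4⟩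
      exact ⟨h3, h4⟩
    · rintro ⟨h3, h4⟩
      have h5 := dz_con M hr hc hz (mem_Irr.mp h3) h4
      exact ⟨⟨h3, h5.1, h5.2.1⟩, h4⟩
  have h2 : ∀ theta ∈ T, (Finset.bipartiteBelow (fun chi theta => mult M chi theta ≠ 0) S theta).card
      = 1 := by
    intro theta htheta
    obtain ⟨ht, hz, hst⟩ := Finset.mem_filter.mp htheta
    have ht := mem_Irr.mp ht
    obtain ⟨h3, h4⟩ := unique_over M ht hst
    rw [← h3]
    congr 1
    ext chi
    simp only [Finset.bipartiteBelow, Finset.mem_filter, hS]
    constructor
    · rintro ⟨⟨h5, -⟩, h6⟩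
      exact ⟨h5, h6⟩
    · rintro ⟨h5, h6⟩
      refine ⟨⟨h5, ?_⟩, h6⟩
      have h5' := mem_Irr.mp h5
      obtain ⟨n, hn0, hn⟩ := deg_nat h5'
      obtain ⟨d, hd, hfac⟩ := hz
      have hd0 : d ≠ 0 := by
        rintro rfl
        exact one_ne ht (by simpa using hd)
      have hdeg := deg_eq M h5' ht h6 hn hd
      have hm1 : mult M chi theta = 1 := le_antisymm (h4 chi h5) (Nat.pos_of_ne_zero h6)
      have hO : (Orb M theta).card = p := by
        have := card_Orb_mul M theta
        rw [hst, hr] at this
        exact Nat.eq_of_mul_eq_mul_right Nat.card_pos this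
      refine ⟨n, hn, ?_⟩
      rw [fac_card M hr, hdeg, hm1, mul_one, hO, Nat.factorization_mul hp.out.ne_zero hd0,
        Finsupp.add_apply, hp.out.factorization, Finsupp.single_eq_same, hfac, add_comm]
  rw [Finset.sum_congr rfl h1, Finset.sum_congr rfl h2, Finset.sum_const, Finset.sum_const,
    smul_eq_mul, smul_eq_mul, mul_one] at h
  rw [← h, mul_comm]

/-- invariance of a function under conjugation -/
def Iv (theta : M → ℂ) : Prop := ∀ (y : X) (a b : M), (b : X) = y * a * y⁻¹ → theta b = theta a

theorem iv_iff (theta : M → ℂ) : Iv M theta ↔ Nat.card (St M theta) = Nat.card X := by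
  rw [Subgroup.card_eq_iff_eq_top, Subgroup.eq_top_iff']
  constructor
  · intro h x
    rw [mem_St]
    funext m
    exact h x m _ (MulAut.conjNormal_apply x m)
  · intro h y a b hab
    have h1 := congrFun ((mem_St M).1 (h y)) a
    rw [← h1]
    unfold cj
    congr 1
    apply Subtype.ext
    rw [MulAut.conjNormal_apply, hab]

end Pool.Agent.Y564.NV

open Pool.Agent.Y63.AWC Pool.Agent.Y564.NV in
/-- defect zero characters over a normal subgroup of index `p` -/
theorem Pool.Agent.Y564.NV.clif : Pool.Agent.Y63.NV.S_CLIF := by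
  intro p hp Y _ _ X hX hq
  cases nonempty_fintype Y
  have hr : Nat.card Y = p * Nat.card X := by
    rw [Subgroup.card_eq_card_quotient_mul_card_subgroup X, hq]
  have h1 := count_dz1 X hr
  rw [numDefectZero_eq, numDefectZero_eq, h1]
  have h2 : Pool.Agent.Y63.NV.numInvDz p X =
      ((Irr X).filter fun theta => DZ p theta ∧ ¬ Nat.card (St X theta) = Nat.card X).card := by
    unfold Pool.Agent.Y63.NV.numInvDz
    rw [← Fintype.card_coe, ← Nat.card_eq_fintype_card]
    refine Nat.card_congr (Equiv.subtypeEquivRight fun theta => ?_)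
    rw [Finset.mem_filter, mem_Irr]
    constructor
    · rintro ⟨h3, h4, h5⟩
      refine ⟨h3, h4, ?_⟩
      have h6 := (iv_iff X theta).1 h5
      rw [h6, hr]
      intro h7
      have h8 := hp.out.two_le
      have h9 : 0 < Nat.card X := Nat.card_pos
      nlinarith
    · rintro ⟨h3, h4, h5⟩
      refine ⟨h3, h4, ?_⟩
      apply (iv_iff X theta).2
      rcases st_cases X hr h3 with h6 | h6
      · exact absurd h6.2.2 h5
      · exact h6.2.2
  rw [h2, ← Finset.filter_filter, ← Finset.filter_filter]
  exact Finset.card_filter_add_card_filter_not _
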